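import Pool.Agent.Q66.LEa6
import Pool.Agent.Q66.LEj2d
import Pool.Agent.Q296.LE.Sig
import Pool.Agent.Q296.LE.Exp
import Pool.Agent.Q296.LE.Calc

/-! # MP_a275d8_an, Q1: yes

There is a `C^∞` family `(f_t)`, `-1 < t < 1`, of `C^∞` diffeomorphisms of a torus (in fact
`T^6`), preserving a common Borel probability measure `μ`, with dominated splittings
`R e_t ⊕ E₂ t`, where the unit vectors `e t p` and `E₂ t p` depend continuously on `(t, p)`,
such that the integrated Lyapunov exponent of the line bundle `R e_t` is not `C^k` at `t = 0`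
for some finite `k`. -/

open Set MeasureTheory Pool.Agent.Q66.LE

namespace Pool.Agent.Results.MP_a275d8_an.NotSmooth

theorem result :
    ∃ (d : ℕ) (Φ : TorusFamily d) (μ : Measure (Tor d)) (e : ℝ → Tor d → V d)
      (E₂ : ℝ → Tor d → Submodule ℝ (V d)),
      IsProbabilityMeasure μ ∧
      (∀ t ∈ Ioo (-1 : ℝ) 1, MeasurePreserving (Φ.f t) μ μ) ∧
      SplittingFamily proj Φ.F e E₂ ∧
      ∃ k : ℕ, ¬ ContDiffAt ℝ (k : ℕ∞) (fun t => lineExponent (Φ.F t) rep (e t) μ) 0 :=
  final_of fam blk mes (split_of Pool.Agent.Q296.LE.sig Pool.Agent.Q296.LE.tht blk fam)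
    Pool.Agent.Q296.LE.exp2 Pool.Agent.Q296.LE.calc' (pos mes fibm)

end Pool.Agent.Results.MP_a275d8_an.NotSmooth
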